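import Pool.Agent.Y882.GX.All

/-!
# Goldbach-Knjzek partitions with an almost prime, at every scale, with few exceptions

The Goldbach-Knjzek conjecture asks for a prime `p` with `√(2n) < p ≤ n` and `2n - p` prime.  Here, for all
but few even numbers `N = 2n`, for EVERY `x` with `N ^ θ ≤ x ≤ N / 2` (so at every scale of `p`
at once, for instance from `√N` on) there are many primes `p` in `(x / 4, x)` such that `N - p`
has at most three, or at most two, prime factors, none of them small.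
-/

set_option autoImplicit false

open Finset Filter

namespace Pool.Agent.Results.MP_73b532_nt.EveryScale

/-- the variable part of the singular series of the Goldbach problem -/
noncomputable def sing (N : ℕ) : ℝ :=
  ∏ p ∈ N.primeFactors.erase 2, (((p : ℝ) - 1) / ((p : ℝ) - 2))

open Classical in
/-- The number of the primes `p < N` with `x / 4 < p < x` such that `N - p` has at most `r`
prime factors (counted with multiplicity), all of them at least `N ^ ζ / 2`. -/
noncomputable def inWindow (r : ℕ) (ζ x : ℝ) (N : ℕ) : ℕ :=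
  ((range N).filter (fun p : ℕ => p.Prime ∧ x / 4 < p ∧ (p : ℝ) < x ∧
    (N - p).primeFactorsList.length ≤ r ∧
    ∀ q : ℕ, q.Prime → q ∣ (N - p) → (N : ℝ) ^ ζ / 2 ≤ q)).card

open Classical in
/-- **A prime plus an almost prime, at every scale of the prime.** Let `r = 3`, `1 / 2 ≤ τ < 1`,
`ζ = 2 τ / 5`, or `r = 2`, `6 / 11 ≤ τ < 1`, `ζ = τ / 4`, and `0 < θ ≤ 1`. All even `N ≤ X` with at
most `C X ^ (2 τ - θ + ε)` exceptions have the following property: for every real `x` with
`N ^ θ ≤ x ≤ N / 2` at least `δ sing N x / (log N) ^ 2` primes `p` in `(x / 4, x)` are such that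
`N - p` has at most `r` prime factors, all of them at least `N ^ ζ / 2`. -/
theorem result (r : ℕ) (θ τ ζ ε : ℝ)
    (hpar : (r = 3 ∧ 1 / 2 ≤ τ ∧ ζ = 2 / 5 * τ) ∨ (r = 2 ∧ 6 / 11 ≤ τ ∧ ζ = τ / 4))
    (hτ : τ < 1) (hθ0 : 0 < θ) (hθ1 : θ ≤ 1) (hε : 0 < ε) :
    ∃ δ C : ℝ, 0 < δ ∧ 0 < C ∧ ∀ X : ℕ, 1 ≤ X →
      (((Icc 1 X).filter (fun N : ℕ => Even N ∧ ∃ x : ℝ, (N : ℝ) ^ θ ≤ x ∧ x ≤ N / 2 ∧
        (inWindow r ζ x N : ℝ) < δ * sing N * (x / Real.log N ^ 2))).card : ℝ) ≤
      C * (X : ℝ) ^ (2 * τ - θ + ε) :=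
  Pool.Agent.Y882.GX.everyScale r θ τ ζ ε hpar hτ hθ0 hθ1 hε

end Pool.Agent.Results.MP_73b532_nt.EveryScale
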