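import Pool.Agent.Results.MP_73b532_nt.EveryScale
import Pool.Agent.Y854.GM.Win

/-!
# Goldbach-Knjzek partitions with an almost prime at every scale, for all even numbers of short windows

Let `v ≥ 1` be a sequence with exponent of convergence at most `τ` (for `v_n = n ^ a` this is `1 / a`, for `v_n = b ^ n`
or `n!` it is `0`), `0 ≤ θ < 1`. Let `r = 3`, `1 / 2 ≤ u < 1` or `r = 2`, `6 / 11 ≤ u < 1`, `0 < η ≤ 1` and `s > 2 u - η`.
For all `α > 0` outside a set of Hausdorff dimension at most `(s + τ) / (1 - θ)` and all but finitely many `n`, ALL even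
`N` with `|N - α v_n| ≤ v_n ^ θ` have the following property: for EVERY `x` with `N ^ η ≤ x ≤ N / 2` there are at least
`δ 𝔖(N) x / (log N) ^ 2` primes `p` with `x / 4 < p < x` such that `N - p` has at most `r` prime factors, none of them
small. With `η = 1 / 2` these are all scales of the conjecture (`√N < p ≤ N / 2`); then windows of length `v_n ^ θ` with
`θ < 1 / 2 - τ` are admissible for `r = 3`, and with `θ < 9 / 22 - τ` for `r = 2`.
-/

set_option autoImplicit false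

open Finset

namespace Pool.Agent.Results.MP_73b532_nt.EveryScaleInWindows

/-- the exponent of convergence of the sequence `v` is at most `τ` -/
def ExpLe (v : ℕ → ℝ) (τ : ℝ) : Prop := ∀ t : ℝ, τ < t → Summable (fun n : ℕ => (v n) ^ (-t))

/-- the variable part of the singular series of the Goldbach problem -/
noncomputable def sing (N : ℕ) : ℝ :=
  ∏ p ∈ N.primeFactors.erase 2, (((p : ℝ) - 1) / ((p : ℝ) - 2))

open Classical in
/-- The number of the primes `p < N` with `x / 4 < p < x` such that `N - p` has at most `r`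
prime factors (counted with multiplicity), all of them at least `N ^ ζ / 2`. -/
noncomputable def inWindow (r : ℕ) (ζ x : ℝ) (N : ℕ) : ℕ :=
  ((range N).filter (fun p : ℕ => p.Prime ∧ x / 4 < p ∧ (p : ℝ) < x ∧
    (N - p).primeFactorsList.length ≤ r ∧
    ∀ q : ℕ, q.Prime → q ∣ (N - p) → (N : ℝ) ^ ζ / 2 ≤ q)).card

/-- the exceptional even numbers -/
def Exc (r : ℕ) (η ζ δ : ℝ) : Set ℕ :=
  {N : ℕ | Even N ∧ ∃ x : ℝ, (N : ℝ) ^ η ≤ x ∧ x ≤ N / 2 ∧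
    (inWindow r ζ x N : ℝ) < δ * sing N * (x / Real.log N ^ 2)}

open Classical in
lemma count (r : ℕ) (η u ζ s : ℝ)
    (hpar : (r = 3 ∧ 1 / 2 ≤ u ∧ ζ = 2 / 5 * u) ∨ (r = 2 ∧ 6 / 11 ≤ u ∧ ζ = u / 4))
    (hu : u < 1) (hη0 : 0 < η) (hη1 : η ≤ 1) (hs : 2 * u - η < s) :
    ∃ δ : ℝ, 0 < δ ∧ ∀ ε : ℝ, 0 < ε → ∃ C : ℝ, ∀ X : ℕ, 1 ≤ X →
      (((Ioc 0 X).filter (fun t => t ∈ Exc r η ζ δ)).card : ℝ) ≤ C * (X : ℝ) ^ (s + ε) := by
  obtain ⟨δ, C, hδ, hC, h⟩ := EveryScale.result r η u ζ (s - (2 * u - η)) hpar hu hη0 hη1 (by linarith)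
  refine ⟨δ, hδ, fun ε hε => ⟨C, fun X hX => ?_⟩⟩
  have h1 := h X hX
  have hX1 : (1 : ℝ) ≤ X := by exact_mod_cast hX
  have hsub : (Ioc 0 X).filter (fun t => t ∈ Exc r η ζ δ) ⊆ (Icc 1 X).filter (fun N : ℕ => Even N ∧
        ∃ x : ℝ, (N : ℝ) ^ η ≤ x ∧ x ≤ N / 2 ∧
        (EveryScale.inWindow r ζ x N : ℝ) < δ * EveryScale.sing N * (x / Real.log N ^ 2)) := by
    intro t ht
    rw [mem_filter, mem_Ioc] at ht
    rw [mem_filter, mem_Icc]
    exact ⟨⟨ht.1.1, ht.1.2⟩, ht.2⟩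
  calc (((Ioc 0 X).filter (fun t => t ∈ Exc r η ζ δ)).card : ℝ)
      ≤ (((Icc 1 X).filter (fun N : ℕ => Even N ∧
        ∃ x : ℝ, (N : ℝ) ^ η ≤ x ∧ x ≤ N / 2 ∧
        (EveryScale.inWindow r ζ x N : ℝ) < δ * EveryScale.sing N * (x / Real.log N ^ 2))).card : ℝ) := by
        exact_mod_cast Finset.card_le_card hsub
    _ ≤ C * (X : ℝ) ^ (2 * u - η + (s - (2 * u - η))) := by
        convert h1 using 2
    _ ≤ C * (X : ℝ) ^ (s + ε) := by
        apply mul_le_mul_of_nonneg_left _ hC.le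
        apply Real.rpow_le_rpow_of_exponent_le hX1
        linarith

/-- **Theorem.** Let `r = 3`, `1 / 2 ≤ u < 1`, `ζ = 2 u / 5`, or `r = 2`, `6 / 11 ≤ u < 1`, `ζ = u / 4`; let `0 < η ≤ 1`
and `s > 2 u - η`. There is `δ > 0` such that for all sequences `v ≥ 1` of exponent of convergence at most `τ ≥ 0` and
`0 ≤ θ < 1` there is a set `E` of Hausdorff dimension at most `(s + τ) / (1 - θ)` such that for each `α > 0` outside `E`
and all but finitely many `n`, ALL even `N` with `|N - α v_n| ≤ v_n ^ θ` have the following property: for EVERY real `x`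
with `N ^ η ≤ x ≤ N / 2` at least `δ 𝔖(N) x / (log N) ^ 2` primes `p` in `(x / 4, x)` are such that `N - p` has at most
`r` prime factors, all of them at least `N ^ ζ / 2`. The sequences `v_n = (n + 1) ^ a` and `v_n = b ^ n` have exponent of
convergence at most `1 / a` and `0`. -/
theorem result :
    (∀ (r : ℕ) (η u ζ s : ℝ),
      ((r = 3 ∧ 1 / 2 ≤ u ∧ ζ = 2 / 5 * u) ∨ (r = 2 ∧ 6 / 11 ≤ u ∧ ζ = u / 4)) → u < 1 → 0 < η → η ≤ 1 →
      2 * u - η < s → ∃ δ : ℝ, 0 < δ ∧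
      ∀ (v : ℕ → ℝ) (τ θ : ℝ), (∀ n, 1 ≤ v n) → 0 ≤ τ → ExpLe v τ → 0 ≤ θ → θ < 1 →
      ∃ E : Set ℝ, dimH E ≤ ENNReal.ofReal ((s + τ) / (1 - θ)) ∧
        ∀ α : ℝ, 0 < α → α ∉ E → ∃ n₀ : ℕ, ∀ n : ℕ, n₀ ≤ n → ∀ N : ℕ, Even N → |(N : ℝ) - α * v n| ≤ (v n) ^ θ →
          ∀ x : ℝ, (N : ℝ) ^ η ≤ x → x ≤ N / 2 →
            δ * sing N * (x / Real.log N ^ 2) ≤ (inWindow r ζ x N : ℝ)) ∧
    (∀ a : ℝ, 0 < a → ExpLe (fun n : ℕ => ((n : ℝ) + 1) ^ a) (1 / a)) ∧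
    (∀ b : ℝ, 1 < b → ExpLe (fun n : ℕ => b ^ n) 0) := by
  refine ⟨fun r η u ζ s hpar hu hη0 hη1 hs => ?_, fun κ hκ => Pool.Agent.Y854.GM.expLe_pow κ hκ,
    fun b hb => Pool.Agent.Y854.GM.expLe_geom b hb⟩
  obtain ⟨δ, hδ, hcount⟩ := count r η u ζ s hpar hu hη0 hη1 hs
  refine ⟨δ, hδ, fun v τ θ hv hτ hE hθ hθ1 => ?_⟩
  have hs0 : 0 ≤ s := by
    rcases hpar with ⟨-, h, -⟩ | ⟨-, h, -⟩
    · linarith
    · linarith
  obtain ⟨E, h2, h3⟩ := Pool.Agent.Y854.GM.win_nat (Exc r η ζ δ) hv hτ hE (s := s) hs0 hθ1 hcount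
  refine ⟨E, h2, fun α hα hαE => ?_⟩
  obtain ⟨n₀, hn⟩ := h3 α hα hαE
  refine ⟨n₀, fun n hn1 N hN hw x hx1 hx2 => ?_⟩
  by_contra hcon
  push Not at hcon
  exact (hn n hn1 N hw).2 ⟨hN, x, hx1, hx2, hcon⟩

end Pool.Agent.Results.MP_73b532_nt.EveryScaleInWindows
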