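import Pool.Agent.Y879.AP.Mean2
import Pool.Agent.Y879.GL.Pattern

set_option autoImplicit false

/-!
Goldbach pairs of almost primes in residue classes, for EVERY even number `N` and EVERY modulus
`q ≤ N ^ (1 - δ)`: the number of the almost prime pairs `(n, N - n)` with
`n = b + q, b + 2 q, ..., b + T q` is Poisson distributed when `b` runs through the admissible residue
classes modulo `q` (or through the admissible classes in a short interval).
-/

namespace Pool.Agent.Results.MP_73b532_nt.GoldbachClassesLaw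

open Finset Filter
open Pool.Agent.Y879.AP Pool.Agent.W123.RP Pool.Agent.H373R2.T7 Pool.Agent.TH464.PO Pool.Agent.TH464.PW

/-- neither `n` nor `N - n` has a prime factor `p ≤ N ^ (1 / r)` -/
def Good (N r n : ℕ) : Prop :=
  ∀ p : ℕ, p.Prime → (p : ℝ) ≤ (N : ℝ) ^ (1 / (r : ℝ)) → ¬ (p : ℤ) ∣ (n : ℤ) ∧ ¬ (p : ℤ) ∣ (N : ℤ) - n

/-- the number of the residue classes `0` and `N` modulo `p` -/
def nu (N p : ℕ) : ℕ := if p ∣ N then 1 else 2

/-- the product of `1 - nu(p) / p` over the primes `p ≤ N ^ (1 / r)` not dividing `q` -/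
noncomputable def V (N q r : ℕ) : ℝ :=
  ∏ p ∈ ((Icc 1 ⌊(N : ℝ) ^ (1 / (r : ℝ))⌋₊).filter Nat.Prime).filter (fun p => ¬ p ∣ q), (1 - (nu N p : ℝ) / p)

/-- the proportion of the classes `b` modulo `q` with `b` and `N - b` prime to `q` -/
noncomputable def rho (N q : ℕ) : ℝ := ∏ p ∈ q.primeFactors, (1 - (nu N p : ℝ) / p)

/-- the singular series of the Goldbach problem, truncated at `N ^ (1 / r)` -/
noncomputable def Sing (N r : ℕ) : ℝ :=
  ∏ p ∈ (Icc 1 ⌊(N : ℝ) ^ (1 / (r : ℝ))⌋₊).filter Nat.Prime, (1 - (nu N p : ℝ) / p) / (1 - 1 / (p : ℝ)) ^ 2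

open Classical in
/-- the number of the `n = b + q, b + 2 q, ..., b + T q` with `Good N r n` -/
noncomputable def Num (N q r T b : ℕ) : ℕ := ((Icc 1 T).filter (fun t => Good N r (b + q * t))).card

lemma he : (-1 : ℤ) * (-1) = 1 := by norm_num

lemma nuB_eq (N p : ℕ) (hp : p.Prime) : nuB (Q2 (-1) (N : ℤ)) p = nu N p := by
  rw [nuB_Q2 _ _ he p hp]
  unfold nu2 nu
  by_cases h : p ∣ N
  · rw [if_pos h, if_pos (Int.natCast_dvd_natCast.2 h)]
  · rw [if_neg h, if_neg (fun h2 => h (Int.natCast_dvd_natCast.1 h2))]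

lemma notQ (N p n : ℕ) (hp : p.Prime) : ¬ Q2 (-1) (N : ℤ) p n ↔
    ¬ (p : ℤ) ∣ (n : ℤ) ∧ ¬ (p : ℤ) ∣ (N : ℤ) - n := by
  unfold Q2
  have hpi : Prime (p : ℤ) := Nat.prime_iff_prime_int.1 hp
  rw [hpi.dvd_mul, not_or, show (-1 : ℤ) * n + N = (N : ℤ) - n by ring]

lemma good_iff (N r n : ℕ) : Good N r n ↔ Sf (Q2 (-1) (N : ℤ)) ⌊(N : ℝ) ^ (1 / (r : ℝ))⌋₊ n := by
  unfold Good Sf
  constructor
  · intro h p hp
    obtain ⟨hp1, hp2⟩ := mem_pz.1 hp
    exact (notQ N p n hp2).2 (h p hp2 ((Nat.le_floor_iff (by positivity)).1 hp1))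
  · intro h p hp hpr
    exact (notQ N p n hp).1 (h p (mem_pz.2 ⟨Nat.le_floor hpr, hp⟩))

lemma V_eq (N q r : ℕ) : V N q r = Vq (Qn (Q2 (-1) (N : ℤ)) q) ⌊(N : ℝ) ^ (1 / (r : ℝ))⌋₊ := by
  unfold V Vq
  rw [Finset.prod_filter]
  apply Finset.prod_congr rfl
  intro p hp
  have hpp := (mem_pz.1 hp).2
  by_cases h : p ∣ q
  · rw [if_neg (by simpa using h), nuB_Qn_dvd _ _ _ h]
    simp
  · rw [if_pos h, nuB_Qn_not _ _ _ h, nuB_eq N p hpp]

lemma rho_eq (N q : ℕ) : rho N q = RD (Q2 (-1) (N : ℤ)) q := by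
  unfold rho RD
  apply Finset.prod_congr rfl
  intro p hp
  rw [nuB_eq N p (Nat.prime_of_mem_primeFactors hp)]

lemma Sing_eq (N r : ℕ) : Sing N r = SS (Q2 (-1) (N : ℤ)) 2 ⌊(N : ℝ) ^ (1 / (r : ℝ))⌋₊ := by
  unfold Sing SS
  apply Finset.prod_congr rfl
  intro p hp
  rw [nuB_eq N p (mem_pz.1 hp).2]

lemma red_iff (N q b : ℕ) : Red (Q2 (-1) (N : ℤ)) q b ↔
    b.Coprime q ∧ Int.gcd ((N : ℤ) - b) q = 1 := by
  unfold Red
  constructor
  · intro h
    constructor
    · apply Nat.coprime_of_dvd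
      intro p hp h1 h2
      exact ((notQ N p b hp).1 (h p hp h2)).1 (Int.natCast_dvd_natCast.2 h1)
    · by_contra hne
      obtain ⟨p, hp, hpd⟩ := Nat.exists_prime_and_dvd hne
      have h1 : (p : ℤ) ∣ (N : ℤ) - b := (Int.natCast_dvd_natCast.2 hpd).trans (Int.gcd_dvd_left _ _)
      have h2 : (p : ℤ) ∣ (q : ℤ) := (Int.natCast_dvd_natCast.2 hpd).trans (Int.gcd_dvd_right _ _)
      exact ((notQ N p b hp).1 (h p hp (Int.natCast_dvd_natCast.1 h2))).2 h1
  · rintro ⟨h1, h2⟩ p hp hpq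
    rw [notQ N p b hp]
    constructor
    · intro h3
      have h4 := Nat.dvd_gcd (Int.natCast_dvd_natCast.1 h3) hpq
      rw [h1] at h4
      exact hp.one_lt.ne' (Nat.dvd_one.1 h4)
    · intro h3
      have h4 : (p : ℤ) ∣ ((Int.gcd ((N : ℤ) - b) q : ℕ) : ℤ) :=
        Int.dvd_coe_gcd h3 (Int.natCast_dvd_natCast.2 hpq)
      rw [h2] at h4
      exact hp.one_lt.ne' (Nat.dvd_one.1 (by exact_mod_cast h4))

open Classical in
/-- **The Poisson law for Goldbach pairs of almost primes in residue classes, for every even number and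
every modulus.** For all `θ, δ, ε > 0` and `x₀` there is `r₀` such that for all `r ≥ r₀` there is `N₀`
such that for EVERY even `N ≥ N₀` and EVERY `1 ≤ q ≤ N ^ (1 - δ)`:
(1) if `0 < n < N` and `Good N r n`, then `n` and `N - n` have at most `r` prime factors;
(2) `V rho log ^ 2 N = ((r e ^ (-γ)) ^ 2 + η) Sing` with `|η| ≤ ε`;
(3) in every interval `(u, u + Y]` with `Y ≥ N ^ θ`, for all `T` with `T V ≤ x₀` and all finite sets `A`
of natural numbers, the number of the `b` with `b` and `N - b` prime to `q` for which the number of the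
good `n` among `b + q, ..., b + T q` lies in `A` is
`Y rho (∑ j ∈ A, e ^ (-T V) (T V) ^ j / j! + η)` with `|η| ≤ ε`. -/
theorem result (θ δ x₀ ε : ℝ) (hθ : 0 < θ) (hδ : 0 < δ) (hε : 0 < ε) :
    ∃ r₀ : ℕ, ∀ r : ℕ, r₀ ≤ r → ∃ N₀ : ℕ, ∀ N : ℕ, N₀ ≤ N → Even N →
      (∀ n : ℕ, 0 < n → n < N → Good N r n →
        n.primeFactorsList.length ≤ r ∧ (N - n).primeFactorsList.length ≤ r) ∧
      ∀ q : ℕ, 1 ≤ q → (q : ℝ) ≤ (N : ℝ) ^ (1 - δ) →
        |V N q r * rho N q * Real.log N ^ 2 -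
          (r * Real.exp (-Real.eulerMascheroniConstant)) ^ 2 * Sing N r| ≤ ε * Sing N r ∧
        ∀ u Y T : ℕ, (N : ℝ) ^ θ ≤ Y → T * V N q r ≤ x₀ → ∀ A : Finset ℕ,
          |(((Ioc u (u + Y)).filter (fun b : ℕ => b.Coprime q ∧ Int.gcd ((N : ℤ) - b) q = 1 ∧
              Num N q r T b ∈ A)).card : ℝ) -
            Y * rho N q * ∑ j ∈ A, Real.exp (-(T * V N q r)) * (T * V N q r) ^ j / j.factorial| ≤
            ε * (Y * rho N q) := by
  obtain ⟨r0, hr02, hlaw⟩ := pair_law 1 (δ / 2) θ x₀ ε one_pos (by positivity) hθ hε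
  refine ⟨r0, ?_⟩
  intro r hr
  have hr2 : 2 ≤ r := hr02.trans hr
  obtain ⟨N0, hN0⟩ := eventually_atTop.1 ((hlaw r hr).and
    ((mean_gen 2 2 1 one_pos r hr2 ε hε).and (Pool.Agent.Y879.GL.level_ok r hr2)))
  refine ⟨max N0 2, ?_⟩
  intro N hN hev
  obtain ⟨h1, h2, h3⟩ := hN0 N ((le_max_left _ _).trans hN)
  have hN2 : 2 ≤ N := (le_max_right _ _).trans hN
  have hN2r : (2 : ℝ) ≤ N := by exact_mod_cast hN2
  have hNpos : (0 : ℝ) < N := by linarith
  have hN1 : (1 : ℝ) < N := by linarith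
  have hrr : (2 : ℝ) ≤ r := by exact_mod_cast hr2
  have hevZ : Even (N : ℤ) := by exact_mod_cast hev
  refine ⟨?_, ?_⟩
  · intro n hn hnN hg
    have hz3 : (3 : ℝ) ≤ (N : ℝ) ^ (1 / (r : ℝ)) := by
      have h4 : ((3 : ℕ) : ℝ) ≤ (N : ℝ) ^ (1 / (r : ℝ)) :=
        (Nat.le_floor_iff (by positivity)).1 h3.1
      exact_mod_cast h4
    have hpow : ((N : ℝ) ^ (1 / (r : ℝ))) ^ r = N := by
      rw [← Real.rpow_natCast, ← Real.rpow_mul hNpos.le, one_div, inv_mul_cancel₀ (by linarith),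
        Real.rpow_one]
    constructor
    · refine Pool.Agent.Y879.GL.few_of_rough ((N : ℝ) ^ (1 / (r : ℝ))) (by linarith) n r
        (by omega) ?_ ?_
      · rw [hpow]
        exact_mod_cast hnN.le
      · intro p hp hpn
        by_contra hcon
        rw [not_lt] at hcon
        exact (hg p hp hcon).1 (Int.natCast_dvd_natCast.2 hpn)
    · refine Pool.Agent.Y879.GL.few_of_rough ((N : ℝ) ^ (1 / (r : ℝ))) (by linarith) (N - n) r
        (by omega) ?_ ?_
      · rw [hpow]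
        exact_mod_cast Nat.sub_le _ _
      · intro p hp hpn
        by_contra hcon
        rw [not_lt] at hcon
        refine (hg p hp hcon).2 ?_
        have h5 := Int.natCast_dvd_natCast.2 hpn
        rw [Nat.cast_sub hnN.le] at h5
        exact h5
  · intro q hq hqN
    have hqN1 : (q : ℝ) ≤ (N : ℝ) ^ (1 : ℝ) :=
      hqN.trans (Real.rpow_le_rpow_of_exponent_le hN1.le (by linarith))
    refine ⟨?_, ?_⟩
    · rw [V_eq, rho_eq, Sing_eq]
      exact h2 (Q2 (-1) (N : ℤ)) q (perB_Q2 _ _ he) (adm_Q2 _ _ he hevZ) hq hqN1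
    · intro u Y T hY hT A
      rw [V_eq] at hT ⊢
      rw [rho_eq]
      have h4 := h1 (-1) (N : ℤ) q he hevZ (by exact_mod_cast (by omega : N ≠ 0))
        (by
          rw [Real.rpow_one]
          push_cast
          rw [abs_of_pos hNpos]) hq hqN1
        (by
          intro t ht htN
          have h5 : (q : ℝ) * t < N := by
            calc (q : ℝ) * t ≤ (N : ℝ) ^ (1 - δ) * (N : ℝ) ^ (δ / 2) := by gcongr
              _ = (N : ℝ) ^ (1 - δ / 2) := by
                rw [← Real.rpow_add hNpos]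
                congr 1
                ring
              _ < (N : ℝ) ^ (1 : ℝ) := Real.rpow_lt_rpow_of_exponent_lt hN1 (by linarith)
              _ = N := Real.rpow_one _
          have h6 : q * t < N := by exact_mod_cast h5
          intro h7
          have h8 : ((q : ℤ) * t) < N := by exact_mod_cast h6
          have h9 : (0 : ℤ) ≤ (q : ℤ) * t := by positivity
          nlinarith)
        u Y hY T hT A
      have hcard : ((Ioc u (u + Y)).filter (fun b : ℕ => b.Coprime q ∧ Int.gcd ((N : ℤ) - b) q = 1 ∧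
              Num N q r T b ∈ A)).card = ((Ioc u (u + Y)).filter (fun n => Red (Q2 (-1) (N : ℤ)) q n ∧
          Ws (Q2 (-1) (N : ℤ)) q ⌊(N : ℝ) ^ (1 / (r : ℝ))⌋₊ T n ∈ A)).card := by
        apply card_iff
        intro b _
        rw [red_iff N q b, and_assoc]
        refine and_congr Iff.rfl (and_congr Iff.rfl ?_)
        have h10 : Num N q r T b = Ws (Q2 (-1) (N : ℤ)) q ⌊(N : ℝ) ^ (1 / (r : ℝ))⌋₊ T b := by
          unfold Num Ws
          exact card_iff _ _ (fun t _ => good_iff N r (b + q * t))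
        rw [h10]
      rw [hcard]
      exact h4

end Pool.Agent.Results.MP_73b532_nt.GoldbachClassesLaw
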